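import Mathlib

/-!
# MP_c2c39f_an: a marginally unstable continuous-time switching system with sublinear growth

The compact family of the matrices `[[-b², b], [0, -b²]]`, `b ∈ [0, 1]`, is marginally unstable and
`M(t) ≤ 1 + √t`.
-/

set_option autoImplicit false

namespace Pool.Agent.Results.MP_c2c39f_an.SublinearGrowth

open Set Filter Topology MeasureTheory Matrix

/-- `x` is a trajectory of the switching system `𝒜`: there is a measurable switching law `A` with
`A(t) ∈ 𝒜` for `t ≥ 0`, `x` is absolutely continuous on `[0, T]` for every `T`, and `x' = A x` almost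
everywhere on `[0, ∞)`. -/
def IsTrajectory {d : ℕ} (𝒜 : Set (Matrix (Fin d) (Fin d) ℝ)) (x : ℝ → Fin d → ℝ) : Prop :=
  ∃ A : ℝ → Matrix (Fin d) (Fin d) ℝ, (∀ i j, Measurable fun t => A t i j) ∧
    (∀ t, 0 ≤ t → A t ∈ 𝒜) ∧
    (∀ T, 0 ≤ T → ∀ i, AbsolutelyContinuousOnInterval (fun t => x t i) 0 T) ∧
    ∀ᵐ t, 0 ≤ t → ∀ i, HasDerivAt (fun s => x s i) ((A t *ᵥ x t) i) t

/-- The Lyapunov exponent `sup_x limsup_{t → ∞} (1/t) log ‖x(t)‖` (with `log 0 = -∞`). -/
noncomputable def lyapunov {d : ℕ} (𝒜 : Set (Matrix (Fin d) (Fin d) ℝ)) : EReal :=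
  ⨆ x : {x : ℝ → Fin d → ℝ // IsTrajectory 𝒜 x},
    limsup (fun t : ℝ => ENNReal.log ‖x.1 t‖ₑ / (t : EReal)) atTop

/-- The system is marginally unstable: its Lyapunov exponent is `0` and some trajectory is
unbounded. -/
def MarginallyUnstable {d : ℕ} (𝒜 : Set (Matrix (Fin d) (Fin d) ℝ)) : Prop :=
  lyapunov 𝒜 = 0 ∧ ∃ x, IsTrajectory 𝒜 x ∧ ∀ C : ℝ, ∃ t, 0 ≤ t ∧ C < ‖x t‖

/-- `M(t) = sup ‖x(t)‖` over all trajectories with `‖x(0)‖ ≤ 1`. -/
noncomputable def growth {d : ℕ} (𝒜 : Set (Matrix (Fin d) (Fin d) ℝ)) (t : ℝ) : ENNReal :=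
  ⨆ x : {x : ℝ → Fin d → ℝ // IsTrajectory 𝒜 x ∧ ‖x 0‖ ≤ 1}, ‖x.1 t‖ₑ

/-- The matrix `[[-b², b], [0, -b²]]`. -/
def mat (b : ℝ) : Matrix (Fin 2) (Fin 2) ℝ := !![-(b ^ 2), b; 0, -(b ^ 2)]

/-- The compact family. -/
def fam : Set (Matrix (Fin 2) (Fin 2) ℝ) := mat '' Icc 0 1

lemma fam_compact : IsCompact fam := by
  apply isCompact_Icc.image
  refine continuous_matrix fun i j => ?_
  fin_cases i <;> fin_cases j <;> simp [mat] <;> fun_prop

lemma cauchy (b : ℝ → ℝ) (T : ℝ) (hT : 0 < T) (hb : IntervalIntegrable b volume 0 T)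
    (hb2 : IntervalIntegrable (fun t => b t ^ 2) volume 0 T) :
    (∫ t in (0 : ℝ)..T, b t) ^ 2 ≤ T * ∫ t in (0 : ℝ)..T, b t ^ 2 := by
  set B := ∫ t in (0 : ℝ)..T, b t with hB
  have h0 : 0 ≤ ∫ t in (0 : ℝ)..T, (b t - B / T) ^ 2 :=
    intervalIntegral.integral_nonneg hT.le fun t _ => sq_nonneg _
  have h1 : ∫ t in (0 : ℝ)..T, (b t - B / T) ^ 2 =
      (∫ t in (0 : ℝ)..T, b t ^ 2) - 2 * (B / T) * B + (B / T) ^ 2 * T := by
    have e : (fun t => (b t - B / T) ^ 2) = fun t => (b t ^ 2 - 2 * (B / T) * b t) + (B / T) ^ 2 := by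
      funext t; ring
    rw [e, intervalIntegral.integral_add (hb2.sub (hb.const_mul _)) (by simp),
      intervalIntegral.integral_sub hb2 (hb.const_mul _), intervalIntegral.integral_const_mul,
      intervalIntegral.integral_const, ← hB]
    simp [mul_comm]
  rw [h1] at h0
  have h2 : T * (2 * (B / T) * B) = 2 * B ^ 2 := by field_simp
  have h3 : T * ((B / T) ^ 2 * T) = B ^ 2 := by field_simp
  nlinarith

lemma exp_lip (a b M : ℝ) (ha : a ≤ M) (hb : b ≤ M) :
    |Real.exp a - Real.exp b| ≤ Real.exp M * |a - b| := by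
  have key : ∀ a b : ℝ, a ≤ b → b ≤ M → Real.exp b - Real.exp a ≤ Real.exp M * (b - a) := by
    intro a b hab hbM
    have h1 := Real.add_one_le_exp (a - b)
    have h2 : Real.exp a = Real.exp b * Real.exp (a - b) := by rw [← Real.exp_add]; ring_nf
    have h3 : Real.exp b ≤ Real.exp M := Real.exp_le_exp.2 hbM
    have h4 := Real.exp_pos b
    calc Real.exp b - Real.exp a = Real.exp b * (1 - Real.exp (a - b)) := by rw [h2]; ring
      _ ≤ Real.exp b * (b - a) := mul_le_mul_of_nonneg_left (by linarith) h4.le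
      _ ≤ Real.exp M * (b - a) := mul_le_mul_of_nonneg_right h3 (by linarith)
  rcases le_total a b with h | h
  · rw [abs_sub_comm, abs_of_nonneg (by linarith [Real.exp_le_exp.2 h]), abs_sub_comm a b,
      abs_of_nonneg (by linarith)]
    exact key a b h hb
  · rw [abs_of_nonneg (by linarith [Real.exp_le_exp.2 h]), abs_of_nonneg (by linarith)]
    exact key b a h ha

lemma int_of_bdd (c : ℝ → ℝ) (hc : Measurable c) (hc1 : ∀ t, 0 ≤ t → 0 ≤ c t ∧ c t ≤ 1)
    (p q : ℝ) (hp : 0 ≤ p) (hq : 0 ≤ q) : IntervalIntegrable c volume p q := by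
  rw [intervalIntegrable_iff]
  apply Measure.integrableOn_of_bounded (M := 1)
  · rw [uIoc]; exact measure_Ioc_lt_top.ne
  · exact hc.aestronglyMeasurable
  · filter_upwards [ae_restrict_mem measurableSet_uIoc] with t ht
    have h0 : 0 ≤ t := by
      rcases uIoc_subset_uIcc ht with ⟨h, -⟩
      exact le_trans (le_min hp hq) h
    have := hc1 t h0
    rw [Real.norm_eq_abs, abs_of_nonneg this.1]
    exact this.2

/-- The exponential of an integral is absolutely continuous. -/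
lemma exp_ac (c : ℝ → ℝ) (T : ℝ) (hT : 0 ≤ T) (hc : Measurable c)
    (hc1 : ∀ t, 0 ≤ t → 0 ≤ c t ∧ c t ≤ 1) :
    AbsolutelyContinuousOnInterval (fun t => Real.exp (∫ s in (0 : ℝ)..t, c s)) 0 T := by
  have hint : ∀ t, 0 ≤ t → IntervalIntegrable c volume 0 t :=
    fun t ht => int_of_bdd c hc hc1 0 t le_rfl ht
  have hlip : ∀ s t, 0 ≤ s → 0 ≤ t →
      |(∫ r in (0 : ℝ)..s, c r) - ∫ r in (0 : ℝ)..t, c r| ≤ |s - t| := by
    intro s t hs ht
    rw [intervalIntegral.integral_interval_sub_left (hint s hs) (hint t ht)]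
    have := intervalIntegral.norm_integral_le_of_norm_le_const (a := t) (b := s) (f := c) (C := 1)
      (fun r hr => by
        have h0 : 0 ≤ r := le_trans (le_min ht hs) (uIoc_subset_uIcc hr).1
        rw [Real.norm_eq_abs, abs_of_nonneg (hc1 r h0).1]
        exact (hc1 r h0).2)
    simpa using this
  have hle : ∀ t, t ∈ uIcc 0 T → ∫ r in (0 : ℝ)..t, c r ≤ T := by
    intro t ht
    rw [uIcc_of_le hT] at ht
    have := hlip t 0 ht.1 le_rfl
    simp only [intervalIntegral.integral_same, sub_zero, abs_of_nonneg ht.1] at this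
    exact (le_abs_self _).trans (this.trans ht.2)
  apply LipschitzOnWith.absolutelyContinuousOnInterval (K := ⟨Real.exp T, (Real.exp_pos T).le⟩)
  apply LipschitzOnWith.of_dist_le_mul
  intro s hs t ht
  rw [Real.dist_eq, Real.dist_eq]
  have hs' := hs
  have ht' := ht
  rw [uIcc_of_le hT] at hs' ht'
  calc _ ≤ Real.exp T * |(∫ r in (0 : ℝ)..s, c r) - ∫ r in (0 : ℝ)..t, c r| :=
        exp_lip _ _ T (hle s hs) (hle t ht)
    _ ≤ Real.exp T * |s - t| := mul_le_mul_of_nonneg_left (hlip s t hs'.1 ht'.1) (Real.exp_pos T).le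

/-- The explicit form of the trajectories. -/
lemma explicit (x : ℝ → Fin 2 → ℝ) (hx : IsTrajectory fam x) (T : ℝ) (hT : 0 ≤ T) :
    ∃ B β : ℝ, 0 ≤ B ∧ 0 ≤ β ∧ B ^ 2 ≤ T * β ∧ x T 1 = Real.exp (-β) * x 0 1 ∧
      x T 0 = Real.exp (-β) * (x 0 0 + x 0 1 * B) := by
  obtain ⟨A, hAm, hA, hac, hd⟩ := hx
  set b : ℝ → ℝ := fun t => A t 0 1 with hb
  have hbm : Measurable b := hAm 0 1
  have hAb : ∀ t, 0 ≤ t → A t = mat (b t) ∧ 0 ≤ b t ∧ b t ≤ 1 := by
    intro t ht
    obtain ⟨c, hc, hcA⟩ := hA t ht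
    have : b t = c := by rw [hb]; simp only; rw [← hcA]; simp [mat]
    rw [this]
    exact ⟨hcA.symm, hc.1, hc.2⟩
  have hb1 : ∀ t, 0 ≤ t → 0 ≤ b t ∧ b t ≤ 1 := fun t ht => (hAb t ht).2
  have hb2 : ∀ t, 0 ≤ t → 0 ≤ b t ^ 2 ∧ b t ^ 2 ≤ 1 := fun t ht =>
    ⟨sq_nonneg _, by have := hb1 t ht; nlinarith⟩
  have hb2m : Measurable fun t => b t ^ 2 := hbm.pow_const 2
  have i1 := int_of_bdd b hbm hb1 0 T le_rfl hT
  have i2 := int_of_bdd (fun t => b t ^ 2) hb2m hb2 0 T le_rfl hT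
  set E : ℝ → ℝ := fun t => Real.exp (∫ s in (0 : ℝ)..t, b s ^ 2) with hE
  have hEac : AbsolutelyContinuousOnInterval E 0 T := exp_ac _ T hT hb2m hb2
  have hE0 : E 0 = 1 := by simp [hE]
  set Bf : ℝ → ℝ := fun t => ∫ s in (0 : ℝ)..t, b s with hBf
  have hBac : AbsolutelyContinuousOnInterval Bf 0 T :=
    i1.absolutelyContinuousOnInterval_intervalIntegral (c := 0) (by simp)
  have hEd : ∀ᵐ t, t ∈ uIcc 0 T → HasDerivAt E (E t * b t ^ 2) t := by
    filter_upwards [i2.ae_hasDerivAt_integral] with t ht1 ht2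
    exact (ht1 ht2 0 (by simp)).exp
  have hBd : ∀ᵐ t, t ∈ uIcc 0 T → HasDerivAt Bf (b t) t := by
    filter_upwards [i1.ae_hasDerivAt_integral] with t ht1 ht2
    exact ht1 ht2 0 (by simp)
  have hy : ∀ t ∈ uIcc 0 T, E t * x t 1 = x 0 1 := by
    have hac1 : AbsolutelyContinuousOnInterval (fun t => E t * x t 1) 0 T := hEac.fun_mul (hac T hT 1)
    obtain ⟨C, hC⟩ := hac1.const_of_ae_hasDerivAt_zero (by
      filter_upwards [hEd, hd] with t h1 h2 ht
      have ht0 : 0 ≤ t := by rw [uIcc_of_le hT] at ht; exact ht.1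
      have h3 := (h1 ht).mul (h2 ht0 1)
      have h4 : E t * b t ^ 2 * x t 1 + E t * (A t *ᵥ x t) 1 = 0 := by
        rw [(hAb t ht0).1]
        simp [mat, Matrix.mulVec, dotProduct, Fin.sum_univ_two]
        ring
      rw [h4] at h3
      exact h3)
    intro t ht
    rw [hC t ht, ← hC 0 (by simp), hE0, one_mul]
  have hx0 : ∀ t ∈ uIcc 0 T, E t * x t 0 - x 0 1 * Bf t = x 0 0 := by
    have hac1 : AbsolutelyContinuousOnInterval (fun t => E t * x t 0 - x 0 1 * Bf t) 0 T :=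
      (hEac.fun_mul (hac T hT 0)).fun_sub (hBac.const_mul _)
    obtain ⟨C, hC⟩ := hac1.const_of_ae_hasDerivAt_zero (by
      filter_upwards [hEd, hd, hBd] with t h1 h2 h2' ht
      have ht0 : 0 ≤ t := by rw [uIcc_of_le hT] at ht; exact ht.1
      have h3 := ((h1 ht).mul (h2 ht0 0)).sub ((h2' ht).const_mul (x 0 1))
      have h4 : E t * b t ^ 2 * x t 0 + E t * (A t *ᵥ x t) 0 - x 0 1 * b t = 0 := by
        rw [(hAb t ht0).1, ← hy t ht]
        simp [mat, Matrix.mulVec, dotProduct, Fin.sum_univ_two]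
        ring
      rw [h4] at h3
      exact h3)
    intro t ht
    rw [hC t ht, ← hC 0 (by simp), hE0, one_mul]
    simp [hBf]
  refine ⟨Bf T, ∫ s in (0 : ℝ)..T, b s ^ 2, ?_, ?_, ?_, ?_, ?_⟩
  · exact intervalIntegral.integral_nonneg hT fun t ht => (hb1 t ht.1).1
  · exact intervalIntegral.integral_nonneg hT fun t ht => (hb2 t ht.1).1
  · rcases hT.eq_or_lt with h | h
    · rw [← h]; simp [hBf]
    · exact cauchy b T h i1 i2
  · have := hy T (by simp)
    rw [← this, ← mul_assoc, ← Real.exp_add]; simp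
  · have := hx0 T (by simp)
    rw [← this, Real.exp_neg]
    have : E T ≠ 0 := (Real.exp_pos _).ne'
    field_simp
    ring

lemma exp_sqrt (B β T : ℝ) (hB : 0 ≤ B) (hβ : 0 ≤ β) (hT : 0 ≤ T) (h : B ^ 2 ≤ T * β) :
    Real.exp (-β) * B ≤ √T := by
  apply Real.le_sqrt_of_sq_le
  have h1 := Real.add_one_le_exp β
  have h2 : Real.exp (-β) * Real.exp β = 1 := by rw [← Real.exp_add]; simp
  have h3 : 0 < Real.exp (-β) := Real.exp_pos _
  have h4 : Real.exp (-β) ≤ 1 := Real.exp_le_one_iff.2 (by linarith)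
  have h5 : Real.exp (-β) * β ≤ 1 := by nlinarith
  calc (Real.exp (-β) * B) ^ 2 = Real.exp (-β) ^ 2 * B ^ 2 := by ring
    _ ≤ Real.exp (-β) ^ 2 * (T * β) := mul_le_mul_of_nonneg_left h (by positivity)
    _ = T * (Real.exp (-β) * (Real.exp (-β) * β)) := by ring
    _ ≤ T * (1 * 1) := by
        apply mul_le_mul_of_nonneg_left _ hT
        exact mul_le_mul h4 h5 (by positivity) zero_le_one
    _ = T := by ring

lemma bound (x : ℝ → Fin 2 → ℝ) (hx : IsTrajectory fam x) (T : ℝ) (hT : 0 ≤ T) :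
    ‖x T‖ ≤ ‖x 0‖ * (1 + √T) := by
  obtain ⟨B, β, hB, hβ, hBβ, h1, h0⟩ := explicit x hx T hT
  have hs : 0 ≤ √T := Real.sqrt_nonneg T
  have he : Real.exp (-β) ≤ 1 := Real.exp_le_one_iff.2 (by linarith)
  have he0 : 0 < Real.exp (-β) := Real.exp_pos _
  have hes := exp_sqrt B β T hB hβ hT hBβ
  have n0 : |x 0 0| ≤ ‖x 0‖ := norm_le_pi_norm (x 0) 0
  have n1 : |x 0 1| ≤ ‖x 0‖ := norm_le_pi_norm (x 0) 1
  rw [pi_norm_le_iff_of_nonneg (by positivity)]
  intro i
  fin_cases i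
  · simp only [Fin.zero_eta, Fin.isValue, Real.norm_eq_abs]
    rw [h0]
    calc |Real.exp (-β) * (x 0 0 + x 0 1 * B)|
        = |Real.exp (-β) * x 0 0 + x 0 1 * (Real.exp (-β) * B)| := by ring_nf
      _ ≤ |Real.exp (-β) * x 0 0| + |x 0 1 * (Real.exp (-β) * B)| := abs_add_le _ _
      _ = Real.exp (-β) * |x 0 0| + |x 0 1| * (Real.exp (-β) * B) := by
          rw [abs_mul, abs_mul, abs_of_pos he0, abs_of_nonneg (by positivity :
            0 ≤ Real.exp (-β) * B)]
      _ ≤ 1 * ‖x 0‖ + ‖x 0‖ * √T :=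
          add_le_add (mul_le_mul he n0 (abs_nonneg _) zero_le_one)
            (mul_le_mul n1 hes (by positivity) (norm_nonneg _))
      _ = ‖x 0‖ * (1 + √T) := by ring
  · simp only [Fin.mk_one, Fin.isValue, Real.norm_eq_abs]
    rw [h1, abs_mul, abs_of_pos he0]
    calc Real.exp (-β) * |x 0 1| ≤ 1 * ‖x 0‖ := mul_le_mul he n1 (abs_nonneg _) zero_le_one
      _ ≤ ‖x 0‖ * (1 + √T) := by nlinarith [norm_nonneg (x 0)]

/-- The constant trajectory `(1, 0)`. -/
lemma const_traj : IsTrajectory fam fun _ => ![1, 0] := by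
  refine ⟨fun _ => mat 0, fun i j => measurable_const, fun t _ => ⟨0, by simp, rfl⟩,
    fun T _ i => ?_, Eventually.of_forall fun t _ i => ?_⟩
  · exact (contDiffOn_const (c := (![1, 0] : Fin 2 → ℝ) i)).absolutelyContinuousOnInterval
  · have : (mat 0 *ᵥ ![1, 0]) i = 0 := by
      fin_cases i <;> simp [mat, Matrix.mulVec, dotProduct, Fin.sum_univ_two]
    rw [this]
    exact hasDerivAt_const t _

/-- the second component of the unbounded trajectory -/
noncomputable def gy (t : ℝ) : ℝ := Real.exp (-(1 - (1 + t)⁻¹))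

lemma gy_deriv (t : ℝ) (ht : 0 ≤ t) : HasDerivAt gy (-(((1 + t)⁻¹) ^ 2) * gy t) t := by
  have h1 : (1 + t) ≠ 0 := by linarith
  have h0 : HasDerivAt (fun x : ℝ => 1 + x) 1 t := by simpa using (hasDerivAt_id t).const_add 1
  have hinv : HasDerivAt (fun x : ℝ => (1 + x)⁻¹) (-1 / (1 + t) ^ 2) t := h0.inv h1
  have h : HasDerivAt (fun x : ℝ => Real.exp (-(1 - (1 + x)⁻¹)))
      (Real.exp (-(1 - (1 + t)⁻¹)) * -(-(-1 / (1 + t) ^ 2))) t := ((hinv.const_sub 1).neg).exp
  unfold gy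
  refine h.congr_deriv ?_
  field_simp

lemma gy_contDiff (T : ℝ) (hT : 0 ≤ T) : ContDiffOn ℝ 1 gy (uIcc 0 T) := by
  unfold gy
  refine ((contDiffOn_const.sub ((contDiffOn_const.add contDiffOn_id).inv fun t ht => ?_)).neg).exp
  rw [uIcc_of_le hT] at ht
  have := ht.1
  simp only [id]
  linarith

lemma unbounded_traj : IsTrajectory fam fun t => ![gy t * Real.log (1 + t), gy t] := by
  refine ⟨fun t => mat ((1 + t)⁻¹), fun i j => ?_, fun t ht => ⟨(1 + t)⁻¹, ⟨?_, ?_⟩, rfl⟩,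
    fun T hT i => ?_, Eventually.of_forall fun t ht i => ?_⟩
  · have h1 : Measurable fun t : ℝ => (1 + t)⁻¹ := by fun_prop
    have h2 : Measurable fun t : ℝ => -((1 + t)⁻¹) ^ 2 := (h1.pow_const 2).neg
    fin_cases i <;> fin_cases j
    · exact h2
    · exact h1
    · exact measurable_const
    · exact h2
  · positivity
  · apply inv_le_one_of_one_le₀; linarith
  · apply ContDiffOn.absolutelyContinuousOnInterval
    have hlog : ContDiffOn ℝ 1 (fun t : ℝ => Real.log (1 + t)) (uIcc 0 T) := by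
      refine (contDiffOn_const.add contDiffOn_id).log fun t ht => ?_
      rw [uIcc_of_le hT] at ht
      have := ht.1
      simp only [id]
      linarith
    fin_cases i
    · exact (gy_contDiff T hT).mul hlog
    · exact gy_contDiff T hT
  · have h1 : (1 + t) ≠ 0 := by linarith
    have hg := gy_deriv t ht
    have hl : HasDerivAt (fun t : ℝ => Real.log (1 + t)) ((1 + t)⁻¹) t := by
      have := ((hasDerivAt_id t).const_add 1).log h1
      simpa using this
    fin_cases i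
    · convert! hg.mul hl using 1
      simp [mat, Matrix.mulVec, dotProduct, Fin.sum_univ_two]
      ring
    · convert! hg using 1
      simp [mat, Matrix.mulVec, dotProduct, Fin.sum_univ_two]

lemma unbounded (C : ℝ) : ∃ t : ℝ, 0 ≤ t ∧ C < ‖(![gy t * Real.log (1 + t), gy t] : Fin 2 → ℝ)‖ := by
  set D := max C 0 + 1 with hD
  have hD0 : 0 < D := by positivity
  have he1 : (0 : ℝ) < Real.exp 1 := Real.exp_pos 1
  refine ⟨Real.exp (D * Real.exp 1) - 1, ?_, ?_⟩
  · have := Real.add_one_le_exp (D * Real.exp 1)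
    nlinarith [mul_pos hD0 he1]
  · set t := Real.exp (D * Real.exp 1) - 1 with ht
    have h1 : 1 + t = Real.exp (D * Real.exp 1) := by rw [ht]; ring
    have hlog : Real.log (1 + t) = D * Real.exp 1 := by rw [h1, Real.log_exp]
    have hgy : Real.exp (-1) ≤ gy t := by
      unfold gy
      apply Real.exp_le_exp.2
      have : 0 < (1 + t)⁻¹ := by rw [h1]; positivity
      linarith
    have h2 : D ≤ gy t * Real.log (1 + t) := by
      rw [hlog]
      calc D = Real.exp (-1) * (D * Real.exp 1) := by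
            rw [mul_comm D, ← mul_assoc, ← Real.exp_add]; simp
        _ ≤ gy t * (D * Real.exp 1) := mul_le_mul_of_nonneg_right hgy (by positivity)
    have h3 : |gy t * Real.log (1 + t)| ≤ ‖(![gy t * Real.log (1 + t), gy t] : Fin 2 → ℝ)‖ :=
      norm_le_pi_norm (![gy t * Real.log (1 + t), gy t] : Fin 2 → ℝ) 0
    have h4 := le_abs_self (gy t * Real.log (1 + t))
    have h5 := le_max_left C 0
    linarith

lemma ratio_tendsto (C : ℝ) : Tendsto (fun t : ℝ => C * (1 + √t) / t) atTop (𝓝 0) := by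
  have h1 : Tendsto (fun t : ℝ => C * t⁻¹ + C * (√t)⁻¹) atTop (𝓝 (C * 0 + C * 0)) :=
    (tendsto_inv_atTop_zero.const_mul C).add
      ((tendsto_inv_atTop_zero.comp Real.tendsto_sqrt_atTop).const_mul C)
  simp only [mul_zero, add_zero] at h1
  refine h1.congr' ?_
  filter_upwards [eventually_gt_atTop (0 : ℝ)] with t ht
  have hs : 0 < √t := Real.sqrt_pos.2 ht
  have h2 : (√t)⁻¹ = √t / t := by
    rw [eq_div_iff ht.ne']
    calc (√t)⁻¹ * t = (√t)⁻¹ * (√t * √t) := by rw [Real.mul_self_sqrt ht.le]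
      _ = √t := by field_simp
  rw [h2]
  field_simp

lemma lyap_zero : lyapunov fam = 0 := by
  apply le_antisymm
  · apply iSup_le
    rintro ⟨x, hx⟩
    set C : ℝ := ‖x 0‖ + 1 with hC
    have hC0 : 0 < C := by positivity
    have hlim : Tendsto (fun t : ℝ => ((C * (1 + √t) / t : ℝ) : EReal)) atTop (𝓝 ((0 : ℝ) : EReal)) :=
      (continuous_coe_real_ereal.tendsto 0).comp (ratio_tendsto C)
    rw [EReal.coe_zero] at hlim
    rw [← hlim.limsup_eq]
    refine limsup_le_limsup ?_ (by isBoundedDefault) (by isBoundedDefault)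
    · filter_upwards [eventually_gt_atTop (0 : ℝ)] with t ht
      have h1 := bound x hx t ht.le
      have hs : 0 ≤ √t := Real.sqrt_nonneg t
      have h2 : ‖x t‖ ≤ C * (1 + √t) := by nlinarith [norm_nonneg (x 0)]
      have h3 : 0 < C * (1 + √t) := by positivity
      have h4 : ‖x t‖ₑ ≤ ENNReal.ofReal (C * (1 + √t)) := by
        rw [← ofReal_norm]; exact ENNReal.ofReal_le_ofReal h2
      have h5 : ENNReal.log ‖x t‖ₑ ≤ ((C * (1 + √t) : ℝ) : EReal) := by
        refine (ENNReal.log_le_log h4).trans ?_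
        rw [ENNReal.log_ofReal_of_pos h3, EReal.coe_le_coe_iff]
        have := Real.log_le_sub_one_of_pos h3
        linarith
      rw [EReal.coe_div]
      exact EReal.div_le_div_right_of_nonneg (by exact_mod_cast ht.le) h5
  · refine le_trans ?_ (le_iSup _ ⟨fun _ => ![1, 0], const_traj⟩)
    have h1 : ‖(![1, 0] : Fin 2 → ℝ)‖ = 1 := by
      apply le_antisymm
      · rw [pi_norm_le_iff_of_nonneg zero_le_one]
        intro i; fin_cases i <;> simp
      · simpa using norm_le_pi_norm (![1, 0] : Fin 2 → ℝ) 0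
    have h2 : ‖(![1, 0] : Fin 2 → ℝ)‖ₑ = 1 := by
      rw [← ofReal_norm, h1]; simp
    simp only [h2, ENNReal.log_one, EReal.zero_div]
    simp

/-- There is a compact set of real `2 × 2` matrices whose continuous-time switching system is marginally
unstable and has sublinear growth, `M(t) / t → 0`; in fact `M(t) ≤ 1 + √t`. -/
theorem result : ∃ 𝒜 : Set (Matrix (Fin 2) (Fin 2) ℝ), IsCompact 𝒜 ∧ MarginallyUnstable 𝒜 ∧
    (∀ t, 0 ≤ t → growth 𝒜 t ≤ ENNReal.ofReal (1 + √t)) ∧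
    Tendsto (fun t : ℝ => growth 𝒜 t / ENNReal.ofReal t) atTop (𝓝 0) := by
  have hgr : ∀ t, 0 ≤ t → growth fam t ≤ ENNReal.ofReal (1 + √t) := by
    intro t ht
    apply iSup_le
    rintro ⟨x, hx, hx1⟩
    rw [← ofReal_norm]
    apply ENNReal.ofReal_le_ofReal
    have h1 := bound x hx t ht
    have hs : 0 ≤ √t := Real.sqrt_nonneg t
    nlinarith [norm_nonneg (x 0)]
  refine ⟨fam, fam_compact, ⟨lyap_zero, _, unbounded_traj, unbounded⟩, hgr, ?_⟩
  have hlim : Tendsto (fun t : ℝ => ENNReal.ofReal (1 * (1 + √t) / t)) atTop (𝓝 (ENNReal.ofReal 0)) :=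
    (ENNReal.continuous_ofReal.tendsto 0).comp (ratio_tendsto 1)
  rw [ENNReal.ofReal_zero] at hlim
  refine tendsto_of_tendsto_of_tendsto_of_le_of_le' tendsto_const_nhds hlim
    (Eventually.of_forall fun _ => zero_le) ?_
  filter_upwards [eventually_gt_atTop (0 : ℝ)] with t ht
  rw [ENNReal.ofReal_div_of_pos ht, one_mul]
  exact ENNReal.div_le_div_right (hgr t ht.le) _

end Pool.Agent.Results.MP_c2c39f_an.SublinearGrowth
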